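import Mathlib

/-!
# MP_496bc7_gt: a supp-perfect semigroup with a Hausdorff semigroup topology in which a support set
`U_x` is not open
-/

namespace Pool.Agent.Results.MP_496bc7_gt.SupportSetNotOpen

open Set Filter Topology

/-- supp-perfect semigroups; `S(F) = {f | supp f ⊆ F}` -/
structure SuppPerfect (S X : Type) [Semigroup S] (supp : S → Set X) : Prop where
  supp_mul : ∀ f g, supp (f * g) ⊆ supp f ∪ supp g
  comm : ∀ f g, supp f ∩ supp g = ∅ → f * g = g * f
  union : ⋃ f, supp f = univ
  finite_supp : ∀ f, (supp f).Finite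
  finite_S : ∀ F : Set X, F.Finite → {f | supp f ⊆ F}.Finite
  cent : ∀ F : Set X, F.Finite →
    {f | supp f ⊆ F} = {g | ∀ t ∈ {f | supp f ⊆ Fᶜ}, g * t = t * g}

/-- the semi-Zariski topology; `WithOne S` is `S` with an adjoined external identity -/
@[instance_reducible] def semiZariski (S : Type) [Semigroup S] : TopologicalSpace S :=
  TopologicalSpace.generateFrom
    ({U | ∃ a b c : WithOne S, U = {s : S | a * (s : WithOne S) * b ≠ c}} ∪
     {U | ∃ a b c d : WithOne S, U = {s : S | a * (s : WithOne S) * b ≠ c * (s : WithOne S) * d}})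

/-- the elements of the example -/
inductive S : Type
  | f : S
  | a : ℕ → S
  | h : ℕ → S
  | b : ℕ → ℕ → S
  | o : S
  | e : S

namespace S

/-- the support -/
def supp : S → Set ℕ
  | f => {0}
  | a n => {0, n + 1}
  | h k => {x | 1 ≤ x ∧ x ≤ k + 1}
  | b j d => {j + 1, j + 2 + d}
  | o => ∅
  | e => ∅

/-- the pairs with product `e` -/
def R : S → S → Prop
  | f, a _ => True
  | h k, a n => n ≤ k
  | h k, b j d => j ≤ k ∧ k ≤ j + d
  | a n, a m => n < m
  | a n, b j _ => j = n
  | b j d, b j' d' => (j = j' ∧ d < d') ∨ j' = j + 1 + d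
  | _, _ => False

open Classical in
/-- all products are `e` or `o` -/
noncomputable instance : Mul S := ⟨fun s t => if R s t then e else o⟩

lemma mul_eq_of {s t : S} (h : R s t) : s * t = e := if_pos h

lemma mul_eq_of_not {s t : S} (h : ¬ R s t) : s * t = o := if_neg h

lemma mul_cases (s t : S) : s * t = e ∨ s * t = o := by
  by_cases h : R s t
  · exact Or.inl (mul_eq_of h)
  · exact Or.inr (mul_eq_of_not h)

lemma e_mul (s : S) : e * s = o := mul_eq_of_not (by cases s <;> simp [R])
lemma o_mul (s : S) : o * s = o := mul_eq_of_not (by cases s <;> simp [R])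
lemma mul_e (s : S) : s * e = o := mul_eq_of_not (by cases s <;> simp [R])
lemma mul_o (s : S) : s * o = o := mul_eq_of_not (by cases s <;> simp [R])

lemma mul_mul_left (s t u : S) : s * t * u = o := by
  rcases mul_cases s t with h | h <;> rw [h]
  · exact e_mul u
  · exact o_mul u

lemma mul_mul_right (s t u : S) : s * (t * u) = o := by
  rcases mul_cases t u with h | h <;> rw [h]
  · exact mul_e s
  · exact mul_o s

noncomputable instance : Semigroup S where
  mul_assoc s t u := by rw [mul_mul_left, mul_mul_right]

/-- `R` forces the supports to meet -/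
lemma R_supp {s t : S} (hR : R s t) : (supp s ∩ supp t).Nonempty := by
  cases s <;> cases t <;> simp only [R] at hR
  · exact ⟨0, by simp [supp]⟩
  · exact ⟨0, by simp [supp]⟩
  · rename_i n j d
    subst hR
    exact ⟨j + 1, by simp [supp]⟩
  · rename_i k n
    exact ⟨n + 1, by simp [supp]; omega⟩
  · rename_i k j d
    exact ⟨j + 1, by simp [supp]; omega⟩
  · rename_i j d j' d'
    rcases hR with ⟨rfl, -⟩ | rfl
    · exact ⟨j + 1, by simp [supp]⟩
    · exact ⟨j + 1 + d + 1, by simp [supp]; omega⟩

lemma supp_of_mul (s t : S) : supp (s * t) = ∅ := by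
  rcases mul_cases s t with h | h <;> rw [h] <;> rfl

lemma finite_supp (s : S) : (supp s).Finite := by
  cases s
  · exact Set.finite_singleton _
  · exact (Set.finite_singleton _).insert _
  · exact (Set.finite_Icc 1 _)
  · exact (Set.finite_singleton _).insert _
  · exact Set.finite_empty
  · exact Set.finite_empty

lemma exists_bound {F : Set ℕ} (hF : F.Finite) : ∃ B, ∀ x ∈ F, x < B := by
  obtain ⟨B, hB⟩ := hF.bddAbove
  exact ⟨B + 1, fun x hx => Nat.lt_succ_of_le (hB hx)⟩

theorem perfect : SuppPerfect S ℕ supp where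
  supp_mul s t := by rw [supp_of_mul]; exact empty_subset _
  comm s t hst := by
    have h1 : ¬ R s t := fun h => by
      obtain ⟨x, hx⟩ := R_supp h
      rw [hst] at hx; exact hx
    have h2 : ¬ R t s := fun h => by
      obtain ⟨x, hx⟩ := R_supp h
      rw [inter_comm, hst] at hx; exact hx
    rw [mul_eq_of_not h1, mul_eq_of_not h2]
  union := by
    ext x
    simp only [mem_iUnion, mem_univ, iff_true]
    rcases x with _ | n
    · exact ⟨f, rfl⟩
    · exact ⟨a n, Or.inr rfl⟩
  finite_supp := finite_supp
  finite_S F hF := by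
    obtain ⟨B, hB⟩ := exists_bound hF
    refine (((((finite_singleton o).insert e).insert f).union
      (((Set.finite_Iio B).image a).union (((Set.finite_Iio B).image h).union
      (((Set.finite_Iio B).prod (Set.finite_Iio B)).image fun z => b z.1 z.2))))).subset ?_
    intro s hs
    have hs' : supp s ⊆ F := hs
    cases s with
    | f => left; left; rfl
    | a n =>
      right; left
      have := hB _ (hs' (show n + 1 ∈ supp (a n) from Or.inr rfl))
      exact ⟨n, by simp only [mem_Iio]; omega, rfl⟩
    | h k =>
      right; right; left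
      have := hB _ (hs' (show k + 1 ∈ supp (h k) from ⟨by omega, le_rfl⟩))
      exact ⟨k, by simp only [mem_Iio]; omega, rfl⟩
    | b j d =>
      right; right; right
      have := hB _ (hs' (show j + 2 + d ∈ supp (b j d) from Or.inr rfl))
      exact ⟨(j, d), ⟨by simp only [mem_Iio]; omega, by simp only [mem_Iio]; omega⟩, rfl⟩
    | o => left; right; right; rfl
    | e => left; right; left; rfl
  cent F hF := by
    obtain ⟨B, hB⟩ := exists_bound hF
    have hB' : ∀ x, B ≤ x → x ∉ F := fun x hx hxF => absurd (hB x hxF) (by omega)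
    apply Subset.antisymm
    · intro s hs t ht
      have hs' : supp s ⊆ F := hs
      have ht' : supp t ⊆ Fᶜ := ht
      have hst : supp s ∩ supp t = ∅ := by
        ext x
        simp only [mem_inter_iff, mem_empty_iff_false, iff_false, not_and]
        intro h1 h2
        exact ht' h2 (hs' h1)
      have h1 : ¬ R s t := fun h => by
        obtain ⟨x, hx⟩ := R_supp h
        rw [hst] at hx; exact hx
      have h2 : ¬ R t s := fun h => by
        obtain ⟨x, hx⟩ := R_supp h
        rw [inter_comm, hst] at hx; exact hx
      rw [mul_eq_of_not h1, mul_eq_of_not h2]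
    · intro s hs
      have hs' : ∀ t, supp t ⊆ Fᶜ → s * t = t * s := hs
      have key : ∀ t, supp t ⊆ Fᶜ → R s t → ¬ R t s → False := by
        intro t h1 h2 h3
        have h4 := hs' t h1
        rw [mul_eq_of h2, mul_eq_of_not h3] at h4
        cases h4
      intro x hx
      by_contra hxF
      cases s with
      | f =>
        have : x = 0 := hx
        subst this
        refine key (a B) ?_ trivial (by simp [R])
        rintro y (rfl | rfl)
        · exact hxF
        · exact hB' _ (by omega)
      | a n =>
        rcases hx with rfl | rfl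
        · refine key (a (n + 1 + B)) ?_ (by simp only [R]; omega) (by simp only [R]; omega)
          rintro y (rfl | rfl)
          · exact hxF
          · exact hB' _ (by omega)
        · refine key (b n B) ?_ rfl (by simp [R])
          rintro y (rfl | rfl)
          · exact hxF
          · exact hB' _ (by omega)
      | h k =>
        obtain ⟨hx1, hx2⟩ := hx
        obtain ⟨j, rfl⟩ : ∃ j, x = j + 1 := ⟨x - 1, by omega⟩
        refine key (b j (k + B)) ?_ ⟨by omega, by omega⟩ (by simp [R])
        rintro y (rfl | rfl)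
        · exact hxF
        · exact hB' _ (by omega)
      | b j d =>
        rcases hx with rfl | rfl
        · refine key (b j (d + 1 + B)) ?_ (Or.inl ⟨rfl, by omega⟩) ?_
          · rintro y (rfl | rfl)
            · exact hxF
            · exact hB' _ (by omega)
          · rintro (⟨-, h⟩ | h) <;> omega
        · refine key (b (j + 1 + d) B) ?_ (Or.inr rfl) ?_
          · rintro y (rfl | rfl)
            · rw [show j + 1 + d + 1 = j + 2 + d by omega]; exact hxF
            · exact hB' _ (by omega)
          · rintro (⟨h, -⟩ | h) <;> omega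
      | o => exact hx
      | e => exact hx

/-- all points are isolated, except `f`, which is the limit of the sequence `h k` -/
@[instance_reducible] def τ : TopologicalSpace S where
  IsOpen U := f ∈ U → ∀ᶠ k in atTop, h k ∈ U
  isOpen_univ _ := Eventually.of_forall fun _ => trivial
  isOpen_inter U V hU hV hf := (hU hf.1).and (hV hf.2)
  isOpen_sUnion 𝒰 h𝒰 := by
    rintro ⟨U, hU, hf⟩
    exact (h𝒰 U hU hf).mono fun k hk => ⟨U, hU, hk⟩

lemma isOpen_iff {U : Set S} : IsOpen[τ] U ↔ (f ∈ U → ∀ᶠ k in atTop, h k ∈ U) := Iff.rfl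

lemma eventually_ne (s : S) : ∀ᶠ k in atTop, h k ≠ s := by
  by_cases hs : ∃ k, h k = s
  · obtain ⟨k, rfl⟩ := hs
    filter_upwards [eventually_gt_atTop k] with l hl heq
    rw [S.h.injEq] at heq
    omega
  · push Not at hs
    exact Eventually.of_forall hs

lemma t2 : @T2Space S τ := by
  let _ := τ
  refine ⟨fun s t hst => ?_⟩
  by_cases hs : s = f
  · subst hs
    refine ⟨{t}ᶜ, {t}, fun _ => ?_, fun h => absurd h hst, hst, rfl, ?_⟩
    · exact eventually_ne t
    · exact disjoint_compl_left
  · refine ⟨{s}, {s}ᶜ, fun h => absurd h.symm hs, fun _ => eventually_ne s, rfl,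
      fun h => hst h.symm, disjoint_compl_right⟩

lemma mul_f (s : S) : s * f = o := mul_eq_of_not (by cases s <;> simp [R])

lemma mul_h (s : S) (k : ℕ) : s * h k = o := mul_eq_of_not (by cases s <;> simp [R])

/-- the products with `h k` on the left are eventually those with `f` -/
lemma h_mul (t : S) : ∀ᶠ k in atTop, h k * t = f * t := by
  cases t with
  | f => exact Eventually.of_forall fun k => by rw [mul_f, mul_f]
  | a n =>
    filter_upwards [eventually_ge_atTop n] with k hk
    rw [mul_eq_of (show R (h k) (a n) from hk), mul_eq_of (show R f (a n) from trivial)]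
  | h l => exact Eventually.of_forall fun k => by rw [mul_h, mul_h]
  | b j d =>
    filter_upwards [eventually_gt_atTop (j + d)] with k hk
    rw [mul_eq_of_not (show ¬ R (h k) (b j d) from fun h => by have := h.2; omega),
      mul_eq_of_not (show ¬ R f (b j d) from id)]
  | o => exact Eventually.of_forall fun k => by rw [mul_o, mul_o]
  | e => exact Eventually.of_forall fun k => by rw [mul_e, mul_e]

lemma isOpen_single {s : S} (hs : s ≠ f) : IsOpen[τ] {s} := fun h => absurd h.symm hs

lemma continuousMul : @ContinuousMul S τ _ := by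
  let _ := τ
  refine ⟨continuous_iff_continuousAt.2 ?_⟩
  rintro ⟨s, t⟩
  rw [ContinuousAt, Tendsto, Filter.le_def]
  intro U hU
  have hU' : s * t ∈ U := mem_of_mem_nhds hU
  rw [Filter.mem_map, mem_nhds_prod_iff]
  by_cases hs : s = f
  · subst hs
    by_cases ht : t = f
    · subst ht
      refine ⟨insert f (range h), IsOpen.mem_nhds (fun _ => Eventually.of_forall fun k =>
        Or.inr ⟨k, rfl⟩) (Or.inl rfl), insert f (range h), IsOpen.mem_nhds (fun _ =>
        Eventually.of_forall fun k => Or.inr ⟨k, rfl⟩) (Or.inl rfl), ?_⟩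
      rintro ⟨u, v⟩ ⟨-, hv⟩
      show u * v ∈ U
      rw [mul_f] at hU'
      rcases hv with hv | ⟨k, hv⟩
      · have hv' : v = f := hv
        rw [hv', mul_f]; exact hU'
      · have hv' : h k = v := hv
        rw [← hv', mul_h]; exact hU'
    · refine ⟨{u | u * t = f * t}, IsOpen.mem_nhds (fun _ => h_mul t) rfl, {t},
        (isOpen_single ht).mem_nhds rfl, ?_⟩
      rintro ⟨u, v⟩ ⟨hu, hv⟩
      have hu' : u * t = f * t := hu
      have hv' : v = t := hv
      show u * v ∈ U
      rw [hv', hu']; exact hU'
  · by_cases ht : t = f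
    · subst ht
      refine ⟨{s}, (isOpen_single hs).mem_nhds rfl, insert f (range h), IsOpen.mem_nhds (fun _ =>
        Eventually.of_forall fun k => Or.inr ⟨k, rfl⟩) (Or.inl rfl), ?_⟩
      rintro ⟨u, v⟩ ⟨-, hv⟩
      show u * v ∈ U
      rw [mul_f] at hU'
      rcases hv with hv | ⟨k, hv⟩
      · have hv' : v = f := hv
        rw [hv', mul_f]; exact hU'
      · have hv' : h k = v := hv
        rw [← hv', mul_h]; exact hU'
    · refine ⟨{s}, (isOpen_single hs).mem_nhds rfl, {t}, (isOpen_single ht).mem_nhds rfl, ?_⟩
      rintro ⟨u, v⟩ ⟨hu, hv⟩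
      have hu' : u = s := hu
      have hv' : v = t := hv
      show u * v ∈ U
      rw [hu', hv']; exact hU'

/-- in `S¹`, either both multipliers are trivial or the product is eventually constant -/
lemma one_or (a b : WithOne S) : (a = 1 ∧ b = 1) ∨
    ∀ᶠ k in atTop, a * ((h k : S) : WithOne S) * b = a * ((f : S) : WithOne S) * b := by
  by_cases ha : a = 1
  · by_cases hb : b = 1
    · exact Or.inl ⟨ha, hb⟩
    · obtain ⟨b, rfl⟩ := WithOne.ne_one_iff_exists.1 hb
      right
      filter_upwards [h_mul b] with k hk
      rw [ha, one_mul, one_mul, ← WithOne.coe_mul, ← WithOne.coe_mul, hk]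
  · obtain ⟨a, rfl⟩ := WithOne.ne_one_iff_exists.1 ha
    right
    refine Eventually.of_forall fun k => ?_
    rw [← WithOne.coe_mul, ← WithOne.coe_mul, mul_h, mul_f]

lemma eventually_ne' (v : WithOne S) : ∀ᶠ k in atTop, ((h k : S) : WithOne S) ≠ v := by
  by_cases hv : v = 1
  · rw [hv]; exact Eventually.of_forall fun k => WithOne.coe_ne_one
  · obtain ⟨v, rfl⟩ := WithOne.ne_one_iff_exists.1 hv
    exact (eventually_ne v).mono fun k hk h => hk (WithOne.coe_inj.1 h)

/-- `τ` is finer than the semi-Zariski topology -/
lemma τ_le : τ ≤ semiZariski S := by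
  refine le_generateFrom ?_
  rintro U (⟨a, b, c, rfl⟩ | ⟨a, b, c, d, rfl⟩)
  · intro hf
    have hf' : a * ((f : S) : WithOne S) * b ≠ c := hf
    rcases one_or a b with ⟨rfl, rfl⟩ | hab
    · filter_upwards [eventually_ne' c] with k hk
      show 1 * ((h k : S) : WithOne S) * 1 ≠ c
      rw [one_mul, mul_one]; exact hk
    · filter_upwards [hab] with k hk
      show a * ((h k : S) : WithOne S) * b ≠ c
      rw [hk]; exact hf'
  · intro hf
    have hf' : a * ((f : S) : WithOne S) * b ≠ c * ((f : S) : WithOne S) * d := hf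
    rcases one_or a b with ⟨rfl, rfl⟩ | hab
    · rcases one_or c d with ⟨rfl, rfl⟩ | hcd
      · exact absurd rfl hf'
      · filter_upwards [hcd, eventually_ne' (c * ((f : S) : WithOne S) * d)] with k hk hk'
        show 1 * ((h k : S) : WithOne S) * 1 ≠ c * ((h k : S) : WithOne S) * d
        rw [hk, one_mul, mul_one]; exact hk'
    · rcases one_or c d with ⟨rfl, rfl⟩ | hcd
      · filter_upwards [hab, eventually_ne' (a * ((f : S) : WithOne S) * b)] with k hk hk'
        show a * ((h k : S) : WithOne S) * b ≠ 1 * ((h k : S) : WithOne S) * 1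
        rw [hk, one_mul, mul_one]; exact hk'.symm
      · filter_upwards [hab, hcd] with k hk hk'
        show a * ((h k : S) : WithOne S) * b ≠ c * ((h k : S) : WithOne S) * d
        rw [hk, hk']; exact hf'

lemma not_open : ¬ IsOpen[τ] {s : S | 0 ∈ supp s} := by
  intro h
  have h1 : ∀ᶠ k in atTop, S.h k ∈ {s : S | 0 ∈ supp s} := h rfl
  obtain ⟨k, hk⟩ := h1.exists
  have hk' : 1 ≤ 0 ∧ 0 ≤ k + 1 := hk
  omega

end S

/-- There are a supp-perfect semigroup `(S, supp)`, a point `x` and a Hausdorff semigroup topology
`τ` on `S` such that `U_x = {f | x ∈ supp f}` is not open in `τ`; moreover `U_x` is not open in the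
semi-Zariski topology. -/
theorem result : ∃ (S X : Type) (_ : Semigroup S) (supp : S → Set X), SuppPerfect S X supp ∧
    ∃ x : X, ¬ IsOpen[semiZariski S] {f : S | x ∈ supp f} ∧
      ∃ τ : TopologicalSpace S, @T2Space S τ ∧ @ContinuousMul S τ _ ∧
        ¬ IsOpen[τ] {f : S | x ∈ supp f} :=
  ⟨S, ℕ, inferInstance, S.supp, S.perfect, 0, fun h => S.not_open (S.τ_le _ h), S.τ, S.t2,
    S.continuousMul, S.not_open⟩

end Pool.Agent.Results.MP_496bc7_gt.SupportSetNotOpen
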